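import Pool.Agent.W8.ST.Stm

/-!
# A trial function
-/

set_option autoImplicit false

open MeasureTheory intervalIntegral

namespace Pool.Agent.W976.ST

open Pool.Agent.W8.ST

/-- the trial function -/
noncomputable def tau (t : ℝ) : ℝ := ∫ s in (0 : ℝ)..t, 2 * max s 0

lemma cont_g : Continuous (fun s : ℝ => 2 * max s 0) := by fun_prop

lemma tau_deriv (t : ℝ) : HasDerivAt tau (2 * max t 0) t :=
  (cont_g.integral_hasStrictDerivAt 0 t).hasDerivAt

lemma tau_nonneg {t : ℝ} (ht : 0 ≤ t) : tau t = t ^ 2 := by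
  unfold tau
  have h1 : ∫ s in (0 : ℝ)..t, 2 * max s 0 = ∫ s in (0 : ℝ)..t, 2 * s := by
    apply intervalIntegral.integral_congr
    intro s hs
    rw [Set.uIcc_of_le ht] at hs
    show 2 * max s 0 = 2 * s
    rw [max_eq_left hs.1]
  rw [h1, intervalIntegral.integral_const_mul, integral_id]
  ring

lemma tau_nonpos {t : ℝ} (ht : t ≤ 0) : tau t = 0 := by
  unfold tau
  have h1 : ∫ s in (0 : ℝ)..t, 2 * max s 0 = ∫ s in (0 : ℝ)..t, (0 : ℝ) := by
    apply intervalIntegral.integral_congr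
    intro s hs
    rw [Set.uIcc_of_ge ht] at hs
    show 2 * max s 0 = 0
    rw [max_eq_right hs.2, mul_zero]
  rw [h1, intervalIntegral.integral_zero]

lemma q_cont : Continuous q := by
  unfold q
  fun_prop

lemma q_pos (t : ℝ) : 0 < q t := by
  unfold q
  exact Real.exp_pos _

theorem Tri_proof : Tri := by
  have hd : deriv tau = fun t => 2 * max t 0 := funext fun t => (tau_deriv t).deriv
  have hC : ContDiff ℝ 1 tau := by
    rw [contDiff_one_iff_deriv]
    exact ⟨fun t => (tau_deriv t).differentiableAt, by rw [hd]; exact cont_g⟩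
  refine ⟨tau, hC, ?_⟩
  have hqi : Continuous (fun t => (q t)⁻¹) := q_cont.inv₀ fun t => (q_pos t).ne'
  have hF : Continuous (fun t => (deriv tau t) ^ 2 +
      (((q t)⁻¹) ^ 2 - 1 / 2 * q t) * (tau t) ^ 2) := by
    have h1 : Continuous (deriv tau) := by rw [hd]; exact cont_g
    have h2 : Continuous tau := hC.continuous
    have h3 := q_cont
    exact (h1.pow 2).add (((hqi.pow 2).sub (continuous_const.mul h3)).mul (h2.pow 2))
  rw [← intervalIntegral.integral_add_adjacent_intervals (b := 0)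
    (hF.intervalIntegrable _ _) (hF.intervalIntegrable _ _)]
  have e1 : ∫ t in (-1 : ℝ)..0, ((deriv tau t) ^ 2 +
      (((q t)⁻¹) ^ 2 - 1 / 2 * q t) * (tau t) ^ 2) = ∫ t in (-1 : ℝ)..0, (0 : ℝ) := by
    apply intervalIntegral.integral_congr
    intro s hs
    rw [Set.uIcc_of_le (by norm_num)] at hs
    show (deriv tau s) ^ 2 + (((q s)⁻¹) ^ 2 - 1 / 2 * q s) * (tau s) ^ 2 = 0
    rw [hd, tau_nonpos hs.2]
    show (2 * max s 0) ^ 2 + _ = _
    rw [max_eq_right hs.2]
    ring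
  rw [e1, intervalIntegral.integral_zero, zero_add]
  have e2 : ∫ t in (0 : ℝ)..1, ((deriv tau t) ^ 2 +
      (((q t)⁻¹) ^ 2 - 1 / 2 * q t) * (tau t) ^ 2) ≤
      ∫ t in (0 : ℝ)..1, (4 * t ^ 2 + t ^ 4 - (4000 / 6) * t ^ 7 + 2000 * t ^ 9
        - 2000 * t ^ 11 + (4000 / 6) * t ^ 13) := by
    apply intervalIntegral.integral_mono_on (by norm_num) (hF.intervalIntegrable _ _)
    · exact Continuous.intervalIntegrable (by fun_prop) _ _
    · intro t ht
      rw [hd, tau_nonneg ht.1]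
      show (2 * max t 0) ^ 2 + _ ≤ _
      rw [max_eq_left ht.1]
      have hx : 0 ≤ 20 * t * (1 - t ^ 2) := by
        have : t ^ 2 ≤ 1 := by nlinarith [ht.1, ht.2]
        exact mul_nonneg (by linarith [ht.1]) (by linarith)
      have hq1 : 1 ≤ q t := Real.one_le_exp hx
      have hq3 : (20 * t * (1 - t ^ 2)) ^ 3 / 6 ≤ q t := by
        have := Real.pow_div_factorial_le_exp (20 * t * (1 - t ^ 2)) hx 3
        norm_num [Nat.factorial] at this
        exact this
      have hqi1 : ((q t)⁻¹) ^ 2 ≤ 1 := by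
        have h1 : (q t)⁻¹ ≤ 1 := inv_le_one_of_one_le₀ hq1
        have h2 : 0 ≤ (q t)⁻¹ := inv_nonneg.2 (q_pos t).le
        exact pow_le_one₀ h2 h1
      have ht4 : 0 ≤ (t ^ 2) ^ 2 := by positivity
      have k1 : ((q t)⁻¹ ^ 2 - 1 / 2 * q t) * (t ^ 2) ^ 2 ≤
          (1 - 1 / 2 * ((20 * t * (1 - t ^ 2)) ^ 3 / 6)) * (t ^ 2) ^ 2 :=
        mul_le_mul_of_nonneg_right (by linarith) ht4
      refine (add_le_add_right k1 _).trans (le_of_eq ?_)
      ring
  refine lt_of_le_of_lt e2 ?_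
  have e3 : ∀ t ∈ Set.uIcc (0 : ℝ) 1, HasDerivAt (fun t : ℝ => 4 * (t ^ 3 / 3) + t ^ 5 / 5
      - (4000 / 6) * (t ^ 8 / 8) + 2000 * (t ^ 10 / 10) - 2000 * (t ^ 12 / 12)
      + (4000 / 6) * (t ^ 14 / 14))
      (4 * t ^ 2 + t ^ 4 - (4000 / 6) * t ^ 7 + 2000 * t ^ 9
        - 2000 * t ^ 11 + (4000 / 6) * t ^ 13) t := by
    intro t _
    have a1 := ((hasDerivAt_pow 3 t).div_const 3).const_mul 4
    have a2 := (hasDerivAt_pow 5 t).div_const 5
    have a3 := ((hasDerivAt_pow 8 t).div_const 8).const_mul (4000 / 6)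
    have a4 := ((hasDerivAt_pow 10 t).div_const 10).const_mul 2000
    have a5 := ((hasDerivAt_pow 12 t).div_const 12).const_mul 2000
    have a6 := ((hasDerivAt_pow 14 t).div_const 14).const_mul (4000 / 6)
    have a7 := ((((a1.add a2).sub a3).add a4).sub a5).add a6
    refine a7.congr_deriv ?_
    push_cast
    ring
  rw [intervalIntegral.integral_eq_sub_of_hasDerivAt e3
    (Continuous.intervalIntegrable (by fun_prop) _ _)]
  norm_num

end Pool.Agent.W976.ST
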